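import Mathlib
import Pool.Agent.Q215.NikFilC

/-!
# A Borel filter which is not `F_σδ` and whose algebra has the Nikodym property

Code the points of `ω × ω` by natural numbers. Let `I = 𝒵 ⊗ Fin` be the ideal of all sets `A`
such that the set `D(A)` of the indices of the infinite columns of `A` has density zero, and let `F`
be the dual filter.

* `F` is Borel. It is not `F_σδ`: otherwise one builds, by a fusion argument over initial blocks of
  columns, a set with too many infinite columns which lies in all the given `F_σ` sets.
* Nikodym: by Nikodym's theorem for the power set, a pointwise bounded sequence of measures is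
  uniformly bounded on the subsets of every member of `I`. If it is unbounded on `I`, choose `A_j` in
  `I`, without points in the first `2^j` columns, with `|μ_{k_j}(A_j)| > j 2^j`, and a residue class
  `r_j` modulo `2^j` such that the part `B_j` of `A_j` in the columns of this class has
  `|μ_{k_j}(B_j)| > j`. Then `⋃ B_j` is in `I`, a contradiction.
-/

set_option autoImplicit false

namespace Pool.Agent.Results.MP_07734d_lc.BorelNikodym

open Pool.Agent.Q215.NikFil

/-- There is a free Borel filter on `ω` which is not an `F_σδ` subset of `2^ω` and whose algebra
`F ∪ F*` has the Nikodym property. -/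
theorem result : ∃ F : Filter ℕ,
    (∀ A : Set ℕ, Aᶜ.Finite → A ∈ F) ∧ (∀ A : Set ℕ, A.Finite → A ∉ F) ∧
    @MeasurableSet (ℕ → Bool) (borel (ℕ → Bool)) (code F) ∧
    ¬ IsFsigmaDelta (code F) ∧
    Nikodym (alg F) := by
  refine ⟨Fl, fun A hA => I.of_finite hA, fun A hA hF => ?_, ?_, not_Fsd, nik_Fl⟩
  · apply not_I_univ
    have h1 : I (A ∪ Aᶜ) := (I.of_finite hA).union hF
    rwa [Set.union_compl_self] at h1
  · have h := borel_code
    rwa [BorelSpace.measurable_eq (α := ℕ → Bool)] at h

end Pool.Agent.Results.MP_07734d_lc.BorelNikodym
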